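import Pool.Agent.N190.AM.Nt
import Pool.Agent.N190.CB.Main

/-!
# From the powers of `X` to `X`
-/

set_option autoImplicit false

open CategoryTheory AlgebraicGeometry

universe u v

namespace Pool.Agent.N190.AM

open Pool.Agent.H914 Pool.Agent.N190.CB Pool.Agent.TH720.LB Pool.Agent.W534 VarClass Obj
  WeilCohomology

variable {k : Type u} [Field k] {𝒱 : VarClass k} {ops : CycleOps 𝒱}
  {W : WeilCohomology.{u, v} ops} {X Y Z : 𝒱.Obj}

/-- **The operators orthogonal to the multiples of `L ^ c` are nilpotent in degree `i`.** -/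
lemma trace_eq_zero_pow {D : X.Cycles} (hD : X.IsCyc 1 D) {c i : ℕ} (hc : 1 ≤ c)
    (hp : par (W.isInternal X) ∈ KOp W X X 0) (m : ℕ)
    {S : Module.End W.K (W.H (pw ops X D m).1)}
    (hS : S ∈ KOp W (pw ops X D m).1 (pw ops X D m).1 (-(((m + 1) * (c - 1) + 1 : ℕ) : ℤ)))
    (hSL : ∀ a ∈ W.gr X i,
      S ((lp W D m ^ ((m + 1) * (c - 1) + 1)) (xp W D a m)) = xp W D a m)
    {q : Module.End W.K (W.H X)} (hq : q ∈ KOp W X X 0)
    (hJ : ∀ u ∈ KOp W X X (-c), str W X (u * LinearMap.mulLeft W.K (W.cl X D) ^ c * q) = 0)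
    {b : Module.End W.K (W.H X)} (hb : b ∈ KOp W X X 0) :
    LinearMap.trace W.K (W.H X) (proj (W.isInternal X) i * (q * b)) = 0 := by
  set L := LinearMap.mulLeft W.K (W.cl X D) with hL
  have hLk : L ∈ KOp W X X 1 := mem_KS_iff.1 (Submodule.subset_span (rop_mulLeft hD))
  have hLp : ∀ a : ℕ, L ^ a ∈ KOp W X X a := fun a => KOp.cast (kop_pow hLk a) (by ring)
  set e := q * b with he
  have hek : e ∈ KOp W X X 0 := KOp.cast (kop_mul hq hb) (by ring)
  -- `L ^ c q` is numerically trivial
  have hc0 : NT W X c (L ^ c * q) := ⟨KOp.cast (kop_mul (hLp c) hq) (by ring), fun u hu => by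
    rw [← mul_assoc]; exact hJ u hu⟩
  have hnt : ∀ a : ℕ, c ≤ a → NT W X a (L ^ a * e) := by
    intro a ha
    have h1 := (hc0.mul_left (hLp (a - c))).mul_right hb
    have e1 : L ^ (a - c) * (L ^ c * q) * b = L ^ a * e := by
      rw [← mul_assoc, ← pow_add, Nat.sub_add_cancel ha, he, mul_assoc]
    rw [e1] at h1
    exact h1.cast (by omega)
  set N := (m + 1) * (c - 1) + 1 with hN
  have h2 := nt_pow (W := W) hD hc hek hnt m N le_rfl
  have h3 : NT W (pw ops X D m).1 0 (S * (lp W D m ^ N * qp W D e m)) :=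
    (h2.mul_left hS).cast (by ring)
  obtain ⟨r, hr⟩ := h3.nilp (par_pw hp m)
  have hes : ∀ s : ℕ, ∀ a ∈ W.gr X i, (e ^ s) a ∈ W.gr X i := fun s a ha =>
    kop_mem (KOp.cast (kop_pow hek s) (by ring)) ha
  have hpow : ∀ s : ℕ, ∀ a ∈ W.gr X i,
      ((S * (lp W D m ^ N * qp W D e m)) ^ s) (xp W D a m) = xp W D ((e ^ s) a) m := by
    intro s a ha
    induction s with
    | zero => rfl
    | succ s ih =>
      rw [pow_succ', Module.End.mul_apply, ih, Module.End.mul_apply, Module.End.mul_apply,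
        qp_xp, hSL _ (kop_mem hek (hes s a ha)), pow_succ', Module.End.mul_apply]
      rfl
  have hnil : ∀ a ∈ W.gr X i, (e ^ r) a = 0 := by
    intro a ha
    apply eq_zero_of_xp (W := W) (D := D) m
    rw [← hpow r a ha, hr, LinearMap.zero_apply]
  apply trace_eq_zero_of_nilp
  refine ⟨r + 1, ?_⟩
  have hc' : Commute (proj (W.isInternal X) i) e := proj_comm hek i
  rw [hc'.mul_pow]
  apply LinearMap.ext
  intro x
  have h4 : proj (W.isInternal X) i ^ (r + 1) = proj (W.isInternal X) i := by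
    have hi : IsIdempotentElem (proj (W.isInternal X) i) := proj_mul_proj _ _
    exact hi.pow_succ_eq r
  rw [h4, (hc'.pow_right (r + 1)).eq, Module.End.mul_apply, pow_succ', Module.End.mul_apply,
    hnil _ (proj_mem _ _ _), map_zero, LinearMap.zero_apply]

/-- **The criterion.** If the operators `q` of degree `0` for which `L ^ c q` is numerically trivial
are numerically trivial in degree `dim X - c`, then some operator of degree `-c` is injective on
`H^(dim X + c)(X)`. -/
theorem inj_of_trace {D : X.Cycles} (hD : X.IsCyc 1 D) (hHL : HardLefschetz W X D) {c : ℕ}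
    (hcn : c ≤ X.dim) (hp : par (W.isInternal X) ∈ KOp W X X 0)
    (key : ∀ q ∈ KOp W X X 0,
      (∀ u ∈ KOp W X X (-c), str W X (u * LinearMap.mulLeft W.K (W.cl X D) ^ c * q) = 0) →
        ∀ b ∈ KOp W X X 0, LinearMap.trace W.K (W.H X)
          (proj (W.isInternal X) (X.dim - c) * (q * b)) = 0) :
    ∃ ν ∈ KOp W X X (-c), ∀ a ∈ W.gr X (X.dim + c), ν a = 0 → a = 0 := by
  have hLk : LinearMap.mulLeft W.K (W.cl X D) ∈ KOp W X X 1 :=
    mem_KS_iff.1 (Submodule.subset_span (rop_mulLeft hD))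
  set π := proj (W.isInternal X) (X.dim - c) with hπ'
  set L := LinearMap.mulLeft W.K (W.cl X D) with hL
  have hLp : ∀ a : ℕ, L ^ a ∈ KOp W X X a := fun a => KOp.cast (kop_pow hLk a) (by ring)
  have hπc : ∀ {a}, a ∈ KOp W X X 0 → π * a = a * π := fun ha => proj_comm ha _
  by_contra hno
  let B : KOp W X X 0 →ₗ[W.K] KOp W X X 0 →ₗ[W.K] W.K :=
    LinearMap.mk₂ W.K (fun a b => str W X ((a : Module.End W.K (W.H X)) *
        (b : Module.End W.K (W.H X))))
      (fun a a' b => by rw [Submodule.coe_add, add_mul, map_add])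
      (fun r a b => by rw [Submodule.coe_smul, smul_mul_assoc, map_smul])
      (fun a b b' => by rw [Submodule.coe_add, mul_add, map_add])
      (fun r a b => by rw [Submodule.coe_smul, mul_smul_comm, map_smul])
  let G : KOp W X X 0 →ₗ[W.K] KOp W X X 0 →ₗ[W.K] W.K :=
    LinearMap.mk₂ W.K (fun a b => LinearMap.trace W.K (W.H X) (π *
        ((a : Module.End W.K (W.H X)) * (b : Module.End W.K (W.H X)))))
      (fun a a' b => by rw [Submodule.coe_add, add_mul, mul_add, map_add])
      (fun r a b => by rw [Submodule.coe_smul, smul_mul_assoc, mul_smul_comm, map_smul])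
      (fun a b b' => by rw [Submodule.coe_add, mul_add, mul_add, map_add])
      (fun r a b => by rw [Submodule.coe_smul, mul_smul_comm, mul_smul_comm, map_smul])
  let J : Submodule W.K (KOp W X X 0) :=
    ((KOp W X X (-c)).map (LinearMap.mulRight W.K (L ^ c))).comap (KOp W X X 0).subtype
  have hG : ∀ {a : KOp W X X 0}, (∀ b, B a b = 0) → ∀ b, G a b = 0 := by
    rintro ⟨a, ha⟩ h ⟨b, hb⟩
    have hab : a * b ∈ KOp W X X 0 := KOp.cast (kop_mul ha hb) (by ring)
    obtain ⟨m, hm⟩ := nilp_num hp hab (fun d hd => by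
      rw [mul_assoc]
      exact h ⟨b * d, KOp.cast (kop_mul hb hd) (by ring)⟩)
    apply trace_eq_zero_of_nilp
    have hc' : Commute π (a * b) := hπc hab
    exact ⟨m, by rw [hc'.mul_pow, hm, mul_zero]⟩
  obtain ⟨q, hq1, hq2⟩ := exists_perp B (J ⊔ LinearMap.ker G) (⟨1, KOp.id X⟩ : KOp W X X 0) (by
    rintro j hj r hrB e
    obtain ⟨⟨j', hj'⟩, ⟨u, hu, hu2⟩, g, hg, rfl⟩ := Submodule.mem_sup.1 hj
    have hu2' : u * L ^ c = j' := hu2
    obtain ⟨t, ht⟩ : ∃ t, t = g + r := ⟨_, rfl⟩
    have htG : ∀ b, G t b = 0 := fun b => by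
      rw [ht, map_add, LinearMap.add_apply, hG hrB b, LinearMap.mem_ker.1 hg,
        LinearMap.zero_apply, add_zero]
    have htk : (t : Module.End W.K (W.H X)) ∈ KOp W X X 0 := t.2
    have hc' : Commute π (t : Module.End W.K (W.H X)) := hπc htk
    have hidem : IsIdempotentElem π := proj_mul_proj _ _
    obtain ⟨m, hm⟩ : IsNilpotent (π * (t : Module.End W.K (W.H X))) := by
      apply isNilpotent_of_trace_pow
      intro m
      have h1 := htG ⟨(t : Module.End W.K (W.H X)) ^ m, KOp.cast (kop_pow htk m) (by ring)⟩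
      rw [hc'.mul_pow, hidem.pow_succ_eq m, pow_succ']
      exact h1
    have e' : (1 : Module.End W.K (W.H X)) = u * L ^ c + (t : Module.End W.K (W.H X)) := by
      rw [hu2', ht]
      have := congrArg Subtype.val e
      rw [Submodule.coe_add, Submodule.coe_add] at this
      rw [Submodule.coe_add, ← add_assoc]
      exact this
    apply hno
    refine ⟨u, hu, fun a ha h0 => ?_⟩
    obtain ⟨b, hb, rfl⟩ := (hHL (X.dim - c) (by omega)).2 a
      (by rwa [show 2 * X.dim - (X.dim - c) = X.dim + c by omega])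
    rw [show X.dim - (X.dim - c) = c by omega] at h0 ⊢
    have hrb : (t : Module.End W.K (W.H X)) b = b := by
      have h1 := congrArg (fun F => F b) e'
      simp only [Module.End.one_apply, LinearMap.add_apply, Module.End.mul_apply] at h1
      rw [show u ((L ^ c) b) = 0 from h0, zero_add] at h1
      exact h1.symm
    have hpb : π b = b := proj_same _ hb
    have hfix : ∀ s : ℕ, ((π * (t : Module.End W.K (W.H X))) ^ s) b = b := by
      intro s
      induction s with
      | zero => rfl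
      | succ s ih =>
        rw [pow_succ, Module.End.mul_apply, Module.End.mul_apply, hrb, hpb, ih]
    have := hfix m
    rw [hm, LinearMap.zero_apply] at this
    rw [← this, map_zero])
  have hqk : (q : Module.End W.K (W.H X)) ∈ KOp W X X 0 := q.2
  have hqJ : ∀ u ∈ KOp W X X (-c), str W X (u * L ^ c * (q : Module.End W.K (W.H X))) = 0 :=
    fun u hu => hq1 ⟨u * L ^ c, KOp.cast (kop_mul hu (hLp c)) (by ring)⟩
      (Submodule.mem_sup_left ⟨u, hu, rfl⟩)
  have hqG : ∀ b ∈ KOp W X X 0,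
      LinearMap.trace W.K (W.H X) (π * ((q : Module.End W.K (W.H X)) * b)) = 0 :=
    fun b hb => key _ hqk hqJ b hb
  have hqq : IsNilpotent ((q : Module.End W.K (W.H X)) * (q : Module.End W.K (W.H X))) := by
    apply nilp_num hp (KOp.cast (kop_mul hqk hqk) (by ring))
    intro b hb
    have hbq : b * (q : Module.End W.K (W.H X)) ∈ KOp W X X 0 :=
      KOp.cast (kop_mul hb hqk) (by ring)
    have h1 := hq1 ⟨b * q, hbq⟩ (Submodule.mem_sup_right (by
      rw [LinearMap.mem_ker]
      apply LinearMap.ext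
      rintro ⟨b', hb'⟩
      have h2 := hqG (b' * b) (KOp.cast (kop_mul hb' hb) (by ring))
      change LinearMap.trace W.K (W.H X) (π * (b * (q : Module.End W.K (W.H X)) * b')) = 0
      have e1 : π * (b * (q : Module.End W.K (W.H X)) * b') =
          b * (π * ((q : Module.End W.K (W.H X)) * b')) := by
        rw [← mul_assoc b π, ← hπc hb]
        simp only [mul_assoc]
      have e2 : π * ((q : Module.End W.K (W.H X)) * b') * b =
          π * ((q : Module.End W.K (W.H X)) * (b' * b)) := by simp only [mul_assoc]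
      rw [e1, LinearMap.trace_mul_comm, e2]
      exact h2))
    rw [← str_comm hb, ← mul_assoc]
    exact h1
  apply hq2
  change str W X (1 * (q : Module.End W.K (W.H X))) = 0
  rw [one_mul, str_apply]
  apply trace_eq_zero_of_nilp
  obtain ⟨m, hm⟩ := hqq
  have hc' : Commute (par (W.isInternal X)) (q : Module.End W.K (W.H X)) := par_comm hqk
  refine ⟨2 * m, ?_⟩
  rw [hc'.mul_pow, pow_mul (q : Module.End W.K (W.H X)), sq, hm, mul_zero]

/-- **The powers of `X`.** -/
theorem inj_of_power {D : X.Cycles} (hD : X.IsCyc 1 D) (hHL : HardLefschetz W X D) {c : ℕ}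
    (hc : 1 ≤ c) (hcn : c ≤ X.dim) (hp : par (W.isInternal X) ∈ KOp W X X 0) (m : ℕ)
    {S : Module.End W.K (W.H (pw ops X D m).1)}
    (hS : S ∈ KOp W (pw ops X D m).1 (pw ops X D m).1 (-(((m + 1) * (c - 1) + 1 : ℕ) : ℤ)))
    (hSL : ∀ a ∈ W.gr X (X.dim - c),
      S ((lp W D m ^ ((m + 1) * (c - 1) + 1)) (xp W D a m)) = xp W D a m) :
    ∃ ν ∈ KOp W X X (-c), ∀ a ∈ W.gr X (X.dim + c), ν a = 0 → a = 0 :=
  inj_of_trace hD hHL hcn hp fun _ hq hJ _ hb => trace_eq_zero_pow hD hc hp m hS hSL hq hJ hb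

end Pool.Agent.N190.AM
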