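import Pool.Agent.N190.AM.Core
import Pool.Agent.TH133.PW.Kun

/-!
# Lefschetz operators far from the middle
-/

set_option autoImplicit false

open CategoryTheory AlgebraicGeometry

universe u v

namespace Pool.Agent.N190.AM

open Pool.Agent.H914 Pool.Agent.H447 Pool.Agent.N190.CB Pool.Agent.TH720.LB Pool.Agent.W534 VarClass
  Obj WeilCohomology

variable {k : Type u} [Field k] {𝒱 : VarClass k} {ops : CycleOps 𝒱}
  {W : WeilCohomology.{u, v} ops} {X V : 𝒱.Obj}

/-- The powers of the Lambda operator are left inverses below the middle. -/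
lemma lam_pow_left {K : Type*} [Field K] {U : Type*} [AddCommGroup U] [Module K U]
    {gr : ℕ → Submodule K U} {n : ℕ} {L Lam : Module.End K U} (h : DirectSum.IsInternal gr)
    (hL : IsHom gr 2 L) (hbd : ∀ i, 2 * n + 1 ≤ i → gr i = ⊥) (hHL : HardLef gr n L)
    (hLam : IsLam gr n L Lam) {j N : ℕ} (hjN : j + N ≤ n) {a : U} (ha : a ∈ gr j) :
    (Lam ^ N) ((L ^ N) a) = a := by
  have key : ∀ x : U, (Lam ^ N) ((L ^ N) (proj h j x)) = proj h j x := by
    intro x
    refine lef_induction' h hL hbd hHL (p := fun x => (Lam ^ N) ((L ^ N) (proj h j x)) =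
      proj h j x) ?_ ?_ x
    · intro a b ha hb
      rw [map_add, map_add, map_add, ha, hb]
    · intro i hi b hb hp t
      have hm : (L ^ t) b ∈ gr (i + 2 * t) := by
        clear hp
        induction t with
        | zero => exact hb
        | succ t ih =>
          have h1 := hL _ _ (show (L ^ t) b ∈ grZ gr ((i + 2 * t : ℕ) : ℤ) by
            rw [grZ_natCast]; exact ih)
          rw [show ((i + 2 * t : ℕ) : ℤ) + 2 = ((i + 2 * (t + 1) : ℕ) : ℤ) by push_cast; ring,
            grZ_natCast] at h1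
          rw [pow_succ', Module.End.mul_apply]
          exact h1
      by_cases hj : i + 2 * t = j
      · subst hj
        rw [proj_same _ hm, ← Module.End.mul_apply (L ^ N), ← pow_add,
          lam_pow hLam hi hb hp (j := N + t) (by omega) N (by omega), Nat.add_sub_cancel_left]
      · rw [proj_ne _ hm hj, map_zero, map_zero]
  have := key a
  rwa [proj_same _ ha] at this

/-- **From operators depending on the class to one left inverse.** -/
lemma exists_left_of_point {L : Module.End W.K (W.H V)} {d : ℤ} (hL : L ∈ KOp W V V d) {i : ℕ}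
    (h : ∀ a ∈ W.gr V i, ∃ T ∈ KOp W V V (-d), T (L a) = a) :
    ∃ T ∈ KOp W V V (-d), ∀ a ∈ W.gr V i, T (L a) = a := by
  obtain ⟨_, ⟨T, hT, rfl⟩, h'⟩ := TH133.PW.tominaga_one_uniform
    (Am := (KOp W V V (-d)).map (LinearMap.mulRight W.K L)) (U := W.gr V i)
    (IsNoetherian.noetherian _) (by
      rintro _ ⟨T, hT, rfl⟩ _ ⟨T', hT', rfl⟩
      refine ⟨T * (1 - L * T'), KOp.cast (kop_mul (d := -d) (e := 0) hT (Submodule.sub_mem _
        (KOp.id V) (KOp.cast (kop_mul hL hT') (by ring)))) (by ring), ?_⟩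
      simp only [LinearMap.mulRight_apply, mul_sub, sub_mul, mul_one, mul_assoc]) (by
      rintro _ ⟨T, hT, rfl⟩ y hy
      exact kop_mem (KOp.cast (kop_mul hT hL) (by ring)) hy) (by
      intro y hy
      obtain ⟨T, hT, hTy⟩ := h y hy
      exact ⟨_, ⟨T, hT, rfl⟩, hTy⟩)
  exact ⟨T, hT, h'⟩

section Defs

/-- One operator of the set `S` sends `x * a` to `a` for all `a` in `U`. -/
def SendsBack {K A : Type*} [Field K] [Ring A] [Algebra K A] (S : Set (Module.End K A))
    (U : Set A) (x : A) : Prop :=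
  ∃ T ∈ S, ∀ a ∈ U, T (x * a) = a

/-- One linear combination of operators of the set `S` sends `x * a` to `a` for all `a` in `U`. -/
def SendsBackSpan {K A : Type*} [Field K] [Ring A] [Algebra K A] (S : Set (Module.End K A))
    (U : Set A) (x : A) : Prop :=
  ∃ T ∈ Submodule.span K S, ∀ a ∈ U, T (x * a) = a

/-- For each `a` in `U` some linear combination of operators of the set `S`, depending on `a`,
sends `x * a` to `a`. -/
def SendsBackEach {K A : Type*} [Field K] [Ring A] [Algebra K A] (S : Set (Module.End K A))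
    (U : Set A) (x : A) : Prop :=
  ∀ a ∈ U, ∃ T ∈ Submodule.span K S, T (x * a) = a

/-- The operators induced by the algebraic cycles of codimension `p` on `V × V`. -/
def cycleOps (W : WeilCohomology.{u, v} ops) (V : 𝒱.Obj) (p : ℕ) : Set (Module.End W.K (W.H V)) :=
  {T | ∃ z, (V.prod V).IsCyc p z ∧ W.corr (W.cl (V.prod V) z) = T}

/-- Some algebraic cycle of codimension `dim V - N` on `V × V` sends `ξ ^ N · a` to `a` for all `a`
in `H^i(V)`, where `ξ` is the class of the divisor `E`. -/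
def Inverts (W : WeilCohomology.{u, v} ops) {V : 𝒱.Obj} (E : V.Cycles) (N i : ℕ) : Prop :=
  SendsBack (cycleOps W V (V.dim - N)) (W.gr V i) (W.cl V E ^ N)

/-- For each `a` in `H^i(V)` some linear combination of algebraic cycles of codimension `dim V - N`
on `V × V`, depending on `a`, sends `ξ ^ N · a` to `a`. -/
def InvertsEach (W : WeilCohomology.{u, v} ops) {V : 𝒱.Obj} (E : V.Cycles) (N i : ℕ) : Prop :=
  SendsBackEach (cycleOps W V (V.dim - N)) (W.gr V i) (W.cl V E ^ N)

/-- The classes `a ⊗ ⋯ ⊗ a` on the power `X ^ (m + 1)` with `a` in `H^i(X)`. -/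
def diagTensors (W : WeilCohomology.{u, v} ops) {X : 𝒱.Obj} (D : X.Cycles) (i m : ℕ) :
    Set (W.H (pw ops X D m).1) :=
  (fun a => xp W D a m) '' (W.gr X i : Set (W.H X))

/-- Some linear combination of algebraic cycles of codimension `dim X ^ (m + 1) - N` on the square of
the power `X ^ (m + 1)` sends `ξ ^ N · (a ⊗ ⋯ ⊗ a)` to `a ⊗ ⋯ ⊗ a` for all `a` in `H^i(X)`. -/
def InvertsDiag (W : WeilCohomology.{u, v} ops) {X : 𝒱.Obj} (D : X.Cycles) (m N i : ℕ) : Prop :=
  SendsBackSpan (cycleOps W (pw ops X D m).1 ((pw ops X D m).1.dim - N)) (diagTensors W D i m)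
    (W.cl _ (pw ops X D m).2 ^ N)

/-- A class of polarized varieties with hard Lefschetz and the sign conjecture, closed under
products and with members of every dimension (for example all smooth projective varieties over a
finite field with their ample divisors, by the theorem of Katz and Messing). -/
structure IsSignClass (W : WeilCohomology.{u, v} ops) (Pol : ∀ X : 𝒱.Obj, X.Cycles → Prop) :
    Prop where
  div : ∀ X D, Pol X D → X.IsCyc 1 D
  hard : ∀ X D, Pol X D → HardLefschetz W X D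
  sign : ∀ X D, Pol X D → SignStd W X
  prod : ∀ X D Y E, Pol X D → Pol Y E → Pol (X.prod Y) (sumDiv ops D E)
  exists_dim : ∀ m, ∃ (P : 𝒱.Obj) (h : P.Cycles), P.dim = m ∧ Pol P h ∧ (1 : W.H P) ≠ 0

end Defs

lemma spanOps_kop {p : ℕ} {d : ℤ} (hd : (p : ℤ) = V.dim + d) {T : Module.End W.K (W.H V)}
    (hT : T ∈ Submodule.span W.K (cycleOps W V p)) : T ∈ KOp W V V d := by
  refine Submodule.span_le.2 ?_ hT
  rintro _ ⟨z, hz, rfl⟩
  exact KOp.gen hd hz

lemma pw_good {D : X.Cycles} (hD : X.IsCyc 1 D) (hHL : HardLefschetz W X D)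
    (hB : LefschetzB W X D) (m : ℕ) :
    HardLefschetz W (pw ops X D m).1 (pw ops X D m).2 ∧
      LefschetzB W (pw ops X D m).1 (pw ops X D m).2 := by
  induction m with
  | zero => exact ⟨hHL, hB⟩
  | succ m ih =>
    exact ⟨TH125.Gal.hardLefschetz_prod hD (isCyc_pw hD m) hHL ih.1,
      X310.Mom.lefschetzB_prod hD (isCyc_pw hD m) hHL ih.1 hB ih.2⟩

lemma pol_pw {Pol : ∀ X : 𝒱.Obj, X.Cycles → Prop} (h : IsSignClass W Pol) {D : X.Cycles}
    (hD : Pol X D) (m : ℕ) : Pol (pw ops X D m).1 (pw ops X D m).2 := by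
  induction m with
  | zero => exact hD
  | succ m ih => exact h.prod _ _ _ _ hD ih

/-- The conjecture B gives left inverses of the powers of the Lefschetz operator, below the
middle. -/
lemma inverts_of_lefschetzB {E : V.Cycles} (hE : V.IsCyc 1 E) (hHL : HardLefschetz W V E)
    (hB : LefschetzB W V E) {N i : ℕ} (hiN : i + N ≤ V.dim) : Inverts W E N i := by
  obtain ⟨Φ, hΦ, hLam⟩ := lefschetzB_iff_rop.1 hB
  have hLh : IsHom (W.gr V) 2 (LinearMap.mulLeft W.K (W.cl V E)) := isHom_mulLeft W hE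
  obtain ⟨z, hz, hzΦ⟩ := exists_of_rop (p := V.dim - N) (d := -(N : ℤ)) (by omega)
    (rop_opAlg.cast (rop_opAlg.pow hΦ N) (by ring))
  refine ⟨_, ⟨z, hz, rfl⟩, fun a ha => ?_⟩
  rw [hzΦ, ← CB.mulLeft_pow_apply (K := W.K)]
  exact lam_pow_left (W.isInternal V) hLh W_hbd hHL hLam hiN ha

lemma Inverts.each {E : V.Cycles} {N i : ℕ} (h : Inverts W E N i) : InvertsEach W E N i := by
  obtain ⟨T, hT, hT'⟩ := h
  exact fun a ha => ⟨T, Submodule.subset_span hT, hT' a ha⟩

/-- One left inverse. -/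
lemma InvertsEach.exists_left {E : V.Cycles} (hE : V.IsCyc 1 E) {N i : ℕ} (hN : N ≤ V.dim)
    (h : InvertsEach W E N i) :
    ∃ T ∈ KOp W V V (-(N : ℤ)), ∀ a ∈ W.gr V i, T (W.cl V E ^ N * a) = a := by
  have hL : LinearMap.mulLeft W.K (W.cl V E) ^ N ∈ KOp W V V (N : ℤ) :=
    KOp.cast (kop_pow (mem_KS_iff.1 (Submodule.subset_span (rop_mulLeft hE))) _) (by ring)
  obtain ⟨T, hT, hT'⟩ := exists_left_of_point hL (i := i) (fun a ha => by
    obtain ⟨T, hT, hT'⟩ := h a ha
    exact ⟨T, spanOps_kop (by omega) hT, by rw [CB.mulLeft_pow_apply]; exact hT'⟩)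
  refine ⟨T, hT, fun a ha => ?_⟩
  have := hT' a ha
  rwa [CB.mulLeft_pow_apply] at this

/-- **One variety.** -/
theorem lefschetzB_tfae_power {D : X.Cycles} (hD : X.IsCyc 1 D) (hHL : HardLefschetz W X D)
    (hS : SignStd W X) :
    List.TFAE [LefschetzB W X D,
      ∀ c ∈ Set.Ico 1 X.dim, ∀ m, Inverts W (pw ops X D m).2 ((m + 1) * (c - 1) + 1)
        ((m + 1) * (X.dim - c)),
      ∀ c ∈ Set.Ico 1 X.dim, ∃ m, InvertsEach W (pw ops X D m).2 ((m + 1) * (c - 1) + 1)
        ((m + 1) * (X.dim - c)),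
      ∀ c ∈ Set.Ico 1 X.dim, ∃ m, InvertsDiag W D m ((m + 1) * (c - 1) + 1) (X.dim - c)] := by
  have hle : ∀ c ∈ Set.Ico 1 X.dim, ∀ m : ℕ,
      (m + 1) * (X.dim - c) + ((m + 1) * (c - 1) + 1) ≤ (pw ops X D m).1.dim := by
    rintro c ⟨hc1, hc2⟩ m
    rw [dim_pw]
    have : (m + 1) * X.dim = (m + 1) * (X.dim - c) + (m + 1) * (c - 1) + (m + 1) := by
      rw [← mul_add, ← Nat.mul_succ]
      congr 1
      omega
    omega
  tfae_have 1 → 2 := by
    rintro hB c hc m
    obtain ⟨h1, h2⟩ := pw_good hD hHL hB m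
    exact inverts_of_lefschetzB (isCyc_pw hD m) h1 h2 (hle c hc m)
  tfae_have 2 → 3 := fun h c hc => ⟨0, (h c hc 0).each⟩
  tfae_have 3 → 4 := by
    intro h c hc
    obtain ⟨m, hm⟩ := h c hc
    have hcc := hle c hc m
    obtain ⟨T, hT, hT'⟩ := hm.exists_left (isCyc_pw hD m) (by omega)
    refine ⟨m, T, ?_, ?_⟩
    · refine Submodule.span_mono ?_ hT
      rintro _ ⟨p, hp, z, hz, rfl⟩
      have hp' : p = (pw ops X D m).1.dim - ((m + 1) * (c - 1) + 1) := by omega
      exact ⟨z, hp' ▸ hz, rfl⟩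
    · rintro _ ⟨a, ha, rfl⟩
      exact hT' _ (xp_mem ha m)
  tfae_have 4 → 1 := by
    intro h
    have hp : par (W.isInternal X) ∈ KOp W X X 0 :=
      mem_KS_iff.1 (Submodule.subset_span (par_rop_of_sign hS))
    apply lefschetzB_of_inj hD hHL
    intro c hcn
    rcases Nat.eq_zero_or_pos c with rfl | hc
    · exact ⟨LinearMap.id, KOp.cast (KOp.id X) (by simp), fun a _ ha => ha⟩
    rcases Nat.eq_or_lt_of_le hcn with rfl | hlt
    · exact inj_top
    · obtain ⟨m, T, hT, hT'⟩ := h c ⟨hc, hlt⟩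
      have hcc := hle c ⟨hc, hlt⟩ m
      refine inj_of_power hD hHL hc hcn hp m (spanOps_kop (by omega) hT) ?_
      intro a ha
      rw [lp, CB.mulLeft_pow_apply]
      exact hT' _ ⟨a, ha, rfl⟩
  tfae_finish

/-- **All varieties of one dimension.** -/
theorem lefschetzB_of_far {Pol : ∀ X : 𝒱.Obj, X.Cycles → Prop} (h : IsSignClass W Pol)
    {n : ℕ} (hn : ∀ c ∈ Set.Ico 1 n, ∃ M, 1 ≤ M ∧ ∀ (V : 𝒱.Obj) (E : V.Cycles), Pol V E →
      V.dim = M * (n + c - 1) → InvertsEach W E 1 (V.dim - M))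
    {D : X.Cycles} (hX : Pol X D) (hdim : X.dim = n) : LefschetzB W X D := by
  have hD := h.div X D hX
  have hHL := h.hard X D hX
  have hp : par (W.isInternal X) ∈ KOp W X X 0 :=
    mem_KS_iff.1 (Submodule.subset_span (par_rop_of_sign (h.sign X D hX)))
  apply lefschetzB_of_inj hD hHL
  intro c hcn
  rcases Nat.eq_zero_or_pos c with rfl | hc
  · exact ⟨LinearMap.id, KOp.cast (KOp.id X) (by simp), fun a _ ha => ha⟩
  rcases Nat.eq_or_lt_of_le hcn with rfl | hlt
  · exact inj_top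
  · obtain ⟨M, hM, hV⟩ := hn c ⟨hc, hdim ▸ hlt⟩
    obtain ⟨m, rfl⟩ : ∃ m, M = m + 1 := ⟨M - 1, by omega⟩
    obtain ⟨Q, η, hQ, hη, h1⟩ := h.exists_dim ((m + 1) * (c - 1))
    have hPP := pol_pw h hX m
    have hcy := h.div _ _ hPP
    have hηc := h.div _ _ hη
    have e1 : (m + 1) * (n + c - 1) = (m + 1) * n + (m + 1) * (c - 1) := by
      rw [← mul_add]
      congr 1
      omega
    have e2 : (m + 1) * n = (m + 1) * (n - c) + (m + 1) * (c - 1) + (m + 1) := by
      rw [← mul_add, ← Nat.mul_succ]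
      congr 1
      omega
    have hVdim : ((pw ops X D m).1.prod Q).dim = (m + 1) * (n + c - 1) := by
      rw [dim_prod, dim_pw, hQ, hdim, e1]
    have hE := isCyc_sumDiv' hcy hηc (ops := ops)
    have hpos : 1 ≤ ((pw ops X D m).1.prod Q).dim := by
      rw [hVdim]
      exact Nat.mul_pos (by omega) (by omega)
    obtain ⟨T, hT, hTL⟩ := (hV _ _ (h.prod _ _ _ _ hPP hη) hVdim).exists_left hE hpos
    have hξ : W.cl _ (pw ops X D m).2 ∈ W.gr (pw ops X D m).1 (2 * 1) := W.cl_mem hcy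
    have hη' : W.cl Q η ∈ W.gr Q (2 * 1) := W.cl_mem hηc
    have hlow := lower_mem (W := W) (V := (pw ops X D m).1) (η := W.cl Q η)
      (KOp.cast hT (by simp))
    refine inj_of_power hD hHL hc hcn hp m (KOp.cast hlow (by rw [hQ]; push_cast; ring)) ?_
    intro a ha
    rw [lp, CB.mulLeft_pow_apply, ← hQ]
    refine lower_apply (W := W) (V := (pw ops X D m).1) (Q := Q) hη' hξ
      (degree_ne_zero hηc (h.hard _ _ hη) h1) (i := (m + 1) * (X.dim - c)) (T := T)
      (fun b hb => ?_) (xp_mem ha m)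
    have := hTL b (by
      rwa [show ((pw ops X D m).1.prod Q).dim - (m + 1) =
        (m + 1) * (X.dim - c) + 2 * Q.dim by rw [hVdim, hQ, hdim]; omega])
    rwa [pow_one, cl_sumDiv] at this

/-- **All varieties.** -/
theorem lefschetzB_tfae_asymptotic {Pol : ∀ X : 𝒱.Obj, X.Cycles → Prop} (h : IsSignClass W Pol) :
    List.TFAE [
      ∀ X D, Pol X D → LefschetzB W X D,
      ∀ V E, Pol V E → ∀ i < V.dim, Inverts W E 1 i,
      ∀ ε : ℝ, 0 < ε → ∃ N₀ : ℕ, ∀ V E, Pol V E → N₀ ≤ V.dim → ∀ i : ℕ,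
        (i : ℝ) ≤ (1 - ε) * V.dim → InvertsEach W E 1 i,
      ∀ n, ∀ c ∈ Set.Ico 1 n, ∃ M, 1 ≤ M ∧ ∀ V E, Pol V E → V.dim = M * (n + c - 1) →
        InvertsEach W E 1 (V.dim - M)] := by
  tfae_have 1 → 2 := fun hB V E hE i hi =>
    inverts_of_lefschetzB (h.div V E hE) (h.hard V E hE) (hB V E hE) hi
  tfae_have 2 → 3 := by
    intro hI ε hε
    refine ⟨1, fun V E hE hV i hi => ?_⟩
    have h1 : (1 : ℝ) ≤ V.dim := by exact_mod_cast hV
    have h2 : (i : ℝ) < V.dim := by nlinarith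
    exact (hI V E hE i (by exact_mod_cast h2)).each
  tfae_have 3 → 4 := by
    rintro hI n c ⟨hc1, hc2⟩
    have hn : (0 : ℝ) < n := by exact_mod_cast (by omega : 0 < n)
    obtain ⟨N₀, hN⟩ := hI (1 / (2 * n)) (by positivity)
    refine ⟨N₀ + 1, by omega, fun V E hE hV => ?_⟩
    have hd : N₀ + 1 ≤ V.dim := by
      rw [hV]
      exact Nat.le_mul_of_pos_right _ (by omega)
    apply hN V E hE (by omega)
    rw [Nat.cast_sub hd]
    have h1 : V.dim ≤ (N₀ + 1) * (2 * n) := by
      rw [hV]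
      exact Nat.mul_le_mul_left _ (by omega)
    have h2 : (V.dim : ℝ) ≤ ((N₀ + 1 : ℕ) : ℝ) * (2 * n) := by exact_mod_cast h1
    have h3 : (V.dim : ℝ) * (1 / (2 * n)) ≤ ((N₀ + 1 : ℕ) : ℝ) := by
      rw [mul_one_div, div_le_iff₀ (by positivity)]
      exact h2
    linarith
  tfae_have 4 → 1 := fun hI X D hD => lefschetzB_of_far h (hI X.dim) hD rfl
  tfae_finish

end Pool.Agent.N190.AM
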