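import Pool.Agent.N190.CB.Sq
import Pool.Agent.TH720.LB.Defs

/-!
# Numerically trivial operators and powers
-/

set_option autoImplicit false

open CategoryTheory AlgebraicGeometry Finset TensorProduct

universe u v

namespace Pool.Agent.N190.AM

open Pool.Agent.H914 Pool.Agent.N190.CB Pool.Agent.TH720.LB VarClass Obj WeilCohomology

variable {k : Type u} [Field k] {𝒱 : VarClass k} {ops : CycleOps 𝒱}
  {W : WeilCohomology.{u, v} ops} {X Y Z : 𝒱.Obj}

/-- The algebraic operator `φ` of degree `e` is numerically trivial. -/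
def NT (W : WeilCohomology.{u, v} ops) (X : 𝒱.Obj) (e : ℤ) (φ : Module.End W.K (W.H X)) : Prop :=
  φ ∈ KOp W X X e ∧ ∀ u ∈ KOp W X X (-e), str W X (u * φ) = 0

lemma NT.cast {d e : ℤ} {φ : Module.End W.K (W.H X)} (h : NT W X d φ) (hde : d = e) :
    NT W X e φ := hde ▸ h

lemma NT.mul_left {d e : ℤ} {φ ψ : Module.End W.K (W.H X)} (h : NT W X e φ)
    (hψ : ψ ∈ KOp W X X d) : NT W X (d + e) (ψ * φ) := by
  refine ⟨kop_mul hψ h.1, fun u hu => ?_⟩
  rw [← mul_assoc]
  exact h.2 _ (KOp.cast (kop_mul hu hψ) (by ring))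

lemma NT.mul_right {d e : ℤ} {φ ψ : Module.End W.K (W.H X)} (h : NT W X e φ)
    (hψ : ψ ∈ KOp W X X d) : NT W X (e + d) (φ * ψ) := by
  refine ⟨kop_mul h.1 hψ, fun u hu => ?_⟩
  rw [← mul_assoc, ← str_comm hψ, ← mul_assoc]
  exact h.2 _ (KOp.cast (kop_mul hψ hu) (by ring))

lemma NT.zero (e : ℤ) : NT W X e 0 :=
  ⟨Submodule.zero_mem _, fun u _ => by rw [mul_zero, map_zero]⟩

lemma NT.add {e : ℤ} {φ ψ : Module.End W.K (W.H X)} (h : NT W X e φ) (h' : NT W X e ψ) :
    NT W X e (φ + ψ) :=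
  ⟨Submodule.add_mem _ h.1 h'.1, fun u hu => by
    rw [mul_add, map_add, h.2 u hu, h'.2 u hu, add_zero]⟩

lemma NT.smul {e : ℤ} {φ : Module.End W.K (W.H X)} (h : NT W X e φ) (c : W.K) :
    NT W X e (c • φ) :=
  ⟨Submodule.smul_mem _ _ h.1, fun u hu => by
    rw [mul_smul_comm, map_smul, h.2 u hu, smul_zero]⟩

lemma NT.sum {ι : Type*} {s : Finset ι} {e : ℤ} {φ : ι → Module.End W.K (W.H X)}
    (h : ∀ i ∈ s, NT W X e (φ i)) : NT W X e (∑ i ∈ s, φ i) := by
  classical
  induction s using Finset.induction_on with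
  | empty => rw [Finset.sum_empty]; exact NT.zero e
  | insert a s ha ih =>
    rw [Finset.sum_insert ha]
    exact (h a (Finset.mem_insert_self _ _)).add
      (ih fun i hi => h i (Finset.mem_insert_of_mem hi))

/-- External products with a numerically trivial first factor. -/
lemma NT.ext_left {d e : ℤ} {φ : Module.End W.K (W.H X)} (h : NT W X e φ)
    {ψ : Module.End W.K (W.H Z)} (hψ : ψ ∈ KOp W Z Z d) :
    NT W (X.prod Z) (e + d) (extOp W φ ψ) := by
  refine ⟨KOp.ext h.1 hψ, fun A hA => ?_⟩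
  obtain ⟨T, hT, h1⟩ := ptrace_left hA hψ
  rw [h1 h.1]
  exact h.2 _ (KOp.cast hT (by ring))

/-- External products with a numerically trivial second factor. -/
lemma NT.ext_right {d e : ℤ} {ψ : Module.End W.K (W.H Z)} (h : NT W Z e ψ)
    {φ : Module.End W.K (W.H X)} (hφ : φ ∈ KOp W X X d) :
    NT W (X.prod Z) (d + e) (extOp W φ ψ) := by
  refine ⟨KOp.ext hφ h.1, fun A hA => ?_⟩
  obtain ⟨T, hT, h1⟩ := ptrace_right hA hφ
  rw [h1 h.1]
  exact h.2 _ (KOp.cast hT (by ring))

lemma NT.nilp (hp : par (W.isInternal X) ∈ KOp W X X 0) {φ : Module.End W.K (W.H X)}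
    (h : NT W X 0 φ) : IsNilpotent φ :=
  nilp_num hp h.1 fun b hb => by
    rw [← str_comm hb]
    exact h.2 b (KOp.cast hb (by ring))

/-- External products of nonzero classes are nonzero. -/
lemma eq_zero_of_tmul' {x : W.H X} {y : W.H Z} (hy : y ≠ 0)
    (h : W.map (fst X Z) x * W.map (snd X Z) y = 0) : x = 0 := by
  by_contra hx
  obtain ⟨f, hf⟩ : ∃ f : Module.Dual W.K (W.H X), f x ≠ 0 := by
    by_contra hf
    push Not at hf
    exact hx ((Module.forall_dual_apply_eq_zero_iff W.K x).1 hf)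
  obtain ⟨g, hg⟩ : ∃ g : Module.Dual W.K (W.H Z), g y ≠ 0 := by
    by_contra hg
    push Not at hg
    exact hy ((Module.forall_dual_apply_eq_zero_iff W.K y).1 hg)
  rw [← kappa_tmul, LinearEquiv.map_eq_zero_iff] at h
  have h1 := congrArg (TensorProduct.lid W.K W.K ∘ TensorProduct.map f g) h
  simp only [Function.comp_apply, TensorProduct.map_tmul, TensorProduct.lid_tmul, map_zero,
    smul_eq_mul] at h1
  exact mul_ne_zero hf hg h1

section Powers

variable (ops)

/-- The power `X ^ (m + 1)` with the sum of the divisors `D`. -/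
noncomputable def pw (X : 𝒱.Obj) (D : X.Cycles) : ℕ → Σ Y : 𝒱.Obj, Y.Cycles
  | 0 => ⟨X, D⟩
  | m + 1 => ⟨X.prod (pw X D m).1, sumDiv ops D (pw X D m).2⟩

variable {ops} (W) (D : X.Cycles)

/-- The external power of an operator. -/
noncomputable def qp (q : Module.End W.K (W.H X)) :
    ∀ m : ℕ, Module.End W.K (W.H (pw ops X D m).1)
  | 0 => q
  | m + 1 => extOp W q (qp q m)

/-- The external power of a class. -/
noncomputable def xp (x : W.H X) : ∀ m : ℕ, W.H (pw ops X D m).1
  | 0 => x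
  | m + 1 => W.map (fst X (pw ops X D m).1) x * W.map (snd X (pw ops X D m).1) (xp x m)

/-- The Lefschetz operator of the power. -/
noncomputable def lp (m : ℕ) : Module.End W.K (W.H (pw ops X D m).1) :=
  LinearMap.mulLeft W.K (W.cl _ (pw ops X D m).2)

variable {W D}

lemma dim_pw (m : ℕ) : (pw ops X D m).1.dim = (m + 1) * X.dim := by
  induction m with
  | zero => rw [zero_add, one_mul]; rfl
  | succ m ih =>
    change (X.prod (pw ops X D m).1).dim = _
    rw [dim_prod, ih]
    ring

lemma isCyc_pw (hD : X.IsCyc 1 D) (m : ℕ) : (pw ops X D m).1.IsCyc 1 (pw ops X D m).2 := by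
  induction m with
  | zero => exact hD
  | succ m ih => exact SmVar.IsCyc.add (ops.pull_mem _ hD) (ops.pull_mem _ ih)

lemma qp_mem {q : Module.End W.K (W.H X)} (hq : q ∈ KOp W X X 0) (m : ℕ) :
    qp W D q m ∈ KOp W (pw ops X D m).1 (pw ops X D m).1 0 := by
  induction m with
  | zero => exact hq
  | succ m ih => exact KOp.cast (KOp.ext hq ih) (by ring)

lemma qp_mul (q b : Module.End W.K (W.H X)) (m : ℕ) :
    qp W D q m * qp W D b m = qp W D (q * b) m := by
  induction m with
  | zero => rfl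
  | succ m ih =>
    change extOp W q (qp W D q m) * extOp W b (qp W D b m) = extOp W (q * b) (qp W D (q * b) m)
    rw [extOp_mul, ih]

lemma qp_xp (q : Module.End W.K (W.H X)) (x : W.H X) (m : ℕ) :
    qp W D q m (xp W D x m) = xp W D (q x) m := by
  induction m with
  | zero => rfl
  | succ m ih =>
    change extOp W q (qp W D q m) (W.map (fst X _) x * W.map (snd X _) (xp W D x m)) = _
    rw [extOp_tmul, ih]
    rfl

lemma xp_mem {i : ℕ} {x : W.H X} (hx : x ∈ W.gr X i) (m : ℕ) :
    xp W D x m ∈ W.gr (pw ops X D m).1 ((m + 1) * i) := by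
  induction m with
  | zero => rw [zero_add, one_mul]; exact hx
  | succ m ih =>
    have := W.mul_mem (W.map_mem (fst X (pw ops X D m).1) hx)
      (W.map_mem (snd X (pw ops X D m).1) ih)
    rwa [show i + (m + 1) * i = (m + 1 + 1) * i by ring] at this

lemma eq_zero_of_xp {x : W.H X} (m : ℕ) (h : xp W D x m = 0) : x = 0 := by
  induction m with
  | zero => exact h
  | succ m ih =>
    by_contra hx
    exact hx (eq_zero_of_tmul' (fun h0 => hx (ih h0)) h)

lemma par_pw (hp : par (W.isInternal X) ∈ KOp W X X 0) (m : ℕ) :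
    par (W.isInternal (pw ops X D m).1) ∈ KOp W (pw ops X D m).1 (pw ops X D m).1 0 := by
  induction m with
  | zero => exact hp
  | succ m ih => exact par_prod hp ih

/-- **The power of the Lefschetz operator which makes the external power numerically trivial.** -/
lemma nt_pow (hD : X.IsCyc 1 D) {c : ℕ} (hc : 1 ≤ c) {q : Module.End W.K (W.H X)}
    (hq : q ∈ KOp W X X 0)
    (h : ∀ a : ℕ, c ≤ a → NT W X a (LinearMap.mulLeft W.K (W.cl X D) ^ a * q)) (m : ℕ) :
    ∀ s : ℕ, (m + 1) * (c - 1) + 1 ≤ s →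
      NT W (pw ops X D m).1 s (lp W D m ^ s * qp W D q m) := by
  have hLk : LinearMap.mulLeft W.K (W.cl X D) ∈ KOp W X X 1 :=
    mem_KS_iff.1 (Submodule.subset_span (rop_mulLeft hD))
  induction m with
  | zero => exact fun s hs => h s (by omega)
  | succ m ih =>
    intro s hs
    have hη : W.cl _ (pw ops X D m).2 ∈ W.gr (pw ops X D m).1 (2 * 1) := W.cl_mem (isCyc_pw hD m)
    have hlk : lp W D m ∈ KOp W (pw ops X D m).1 (pw ops X D m).1 1 :=
      mem_KS_iff.1 (Submodule.subset_span (rop_mulLeft (isCyc_pw hD m)))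
    have e1 : LinearMap.mulLeft W.K
        (W.cl (X.prod (pw ops X D m).1) (sumDiv ops D (pw ops X D m).2)) =
          extOp W (LinearMap.mulLeft W.K (W.cl X D)) 1 + extOp W 1 (lp W D m) := by
      rw [sumDiv, map_add, W.cl_pull, W.cl_pull]
      exact mulLeft_sum _ hη
    change NT W (X.prod (pw ops X D m).1) s (LinearMap.mulLeft W.K
      (W.cl (X.prod (pw ops X D m).1) (sumDiv ops D (pw ops X D m).2)) ^ s *
        extOp W q (qp W D q m))
    rw [e1, CB.sum_pow, Finset.sum_mul]
    refine NT.sum fun a ha => ?_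
    rw [Finset.mem_range] at ha
    rw [smul_mul_assoc, extOp_mul]
    apply NT.smul
    rcases le_or_gt c a with hca | hca
    · have h1 : lp W D m ^ (s - a) * qp W D q m ∈
          KOp W (pw ops X D m).1 (pw ops X D m).1 ((s - a : ℕ) : ℤ) :=
        KOp.cast (kop_mul (kop_pow hlk _) (qp_mem hq m)) (by ring)
      exact ((h a hca).ext_left h1).cast (by omega)
    · have h1 : LinearMap.mulLeft W.K (W.cl X D) ^ a * q ∈ KOp W X X a :=
        KOp.cast (kop_mul (kop_pow hLk _) hq) (by ring)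
      have h2 : (m + 1) * (c - 1) + 1 ≤ s - a := by
        have : (m + 1 + 1) * (c - 1) = (m + 1) * (c - 1) + (c - 1) := by ring
        omega
      exact ((ih (s - a) h2).ext_right h1).cast (by omega)

end Powers

end Pool.Agent.N190.AM
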